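import Pool.Agent.H14Trans.Bonf

/-!
# The Brun-Hooley sieve with explicit constants, for general layers
-/

set_option autoImplicit false

namespace Pool.Agent.H52G

open Finset Classical Pool.Agent.H14Trans

/-- `s` avoids all the bad classes. -/
def Avoid (bad : ℕ → ℕ → Prop) (D : Finset ℕ) (s : ℕ) : Prop := ∀ b ∈ D, ¬ bad b s

/-- Data of the Brun-Hooley sieve: a base `B`, layers `L i`, even truncation levels `k i`. -/
structure Data (bad : ℕ → ℕ → Prop) (ω : ℕ → ℕ) (D B : Finset ℕ) (J : ℕ) (L : ℕ → Finset ℕ)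
    (k : ℕ → ℕ) (ε : ℕ → ℝ) : Prop where
  good : Good bad ω D
  union : D = B ∪ (range J).biUnion L
  dB : Disjoint B ((range J).biUnion L)
  dL : ∀ i < J, ∀ j < J, i ≠ j → Disjoint (L i) (L j)
  even : ∀ i, Even (k i)
  Bpos : 0 < ∏ b ∈ B, (1 - (ω b : ℝ) / b)
  Lpos : ∀ i < J, 0 < ∏ b ∈ L i, (1 - (ω b : ℝ) / b)
  eps : ∀ i < J, esum (L i) (fun b => (ω b : ℝ) / b) (k i + 1) ≤
    ε i * ∏ b ∈ L i, (1 - (ω b : ℝ) / b)
  eps0 : ∀ i, 0 ≤ ε i

variable {bad : ℕ → ℕ → Prop} {ω : ℕ → ℕ} {D B : Finset ℕ} {J : ℕ} {L : ℕ → Finset ℕ}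
    {k : ℕ → ℕ} {ε : ℕ → ℝ}

/-- Brun-Hooley sieve, upper and lower bound. -/
theorem brun_hooley (H : Data bad ω D B J L k ε) (N : ℕ) :
    N * (∏ b ∈ D, (1 - (ω b : ℝ) / b)) * (1 - ∑ i ∈ range J, ε i) -
      ((J : ℝ) + 1) * ((∏ b ∈ B, (1 + (ω b : ℝ))) *
        ∏ i ∈ range J, (1 + ∑ b ∈ L i, (ω b : ℝ)) ^ (k i + 1)) ≤
      (#((range N).filter (Avoid bad D)) : ℝ) ∧
    (#((range N).filter (Avoid bad D)) : ℝ) ≤
      N * (∏ b ∈ D, (1 - (ω b : ℝ) / b)) * ∏ i ∈ range J, (1 + ε i) +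
      (∏ b ∈ B, (1 + (ω b : ℝ))) * ∏ i ∈ range J, (1 + ∑ b ∈ L i, (ω b : ℝ)) ^ (k i) := by
  obtain ⟨hG, hDeq, hdB, hdl, hkev, hVBpos, hVpos, hζε, hε0⟩ := H
  set V : ℕ → ℝ := fun i => ∏ b ∈ L i, (1 - (ω b : ℝ) / b) with hV
  set VB : ℝ := ∏ b ∈ B, (1 - (ω b : ℝ) / b) with hVB
  have hpd : Set.PairwiseDisjoint (↑(range J)) L := by
    intro i hi j hj hij
    rw [mem_coe, mem_range] at hi hj
    exact hdl i hi j hj hij
  have hVtot : ∏ b ∈ D, (1 - (ω b : ℝ) / b) = VB * ∏ i ∈ range J, V i := by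
    conv_lhs => rw [hDeq]
    rw [prod_union hdB, prod_biUnion hpd]
  have hxtot : ∀ s, ind (Avoid bad D s) = xx bad B s * ∏ i ∈ range J, xx bad (L i) s := by
    intro s
    have : ind (Avoid bad D s) = xx bad D s := by rw [xx_eq]; rfl
    rw [this]
    unfold xx
    conv_lhs => rw [hDeq]
    rw [prod_union hdB, prod_biUnion hpd]
  have hBsub : B ⊆ D := by rw [hDeq]; exact subset_union_left
  have hLsub : ∀ i < J, L i ⊆ D := by
    intro i hi
    rw [hDeq]
    exact (subset_biUnion_of_mem L (mem_range.mpr hi)).trans subset_union_right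
  have hGi : ∀ i < J, Good bad ω (L i) := fun i hi => hG.mono (hLsub i hi)
  -- combinations
  have hcombx : ∀ i, Comb bad ω (L i) (xx bad (L i)) (V i)
      (∏ b ∈ L i, (1 + (ω b : ℝ))) := fun i => comb_full _
  choose τ hτ using fun i => comb_yy (bad := bad) (ω := ω) (L i) (k i)
  set ζ : ℕ → ℝ := fun i => esum (L i) (fun b => (ω b : ℝ) / b) (k i + 1) with hζ
  set W : ℕ → ℝ := fun i => 1 + ∑ b ∈ L i, (ω b : ℝ) with hW
  have hz : ∀ i, Comb bad ω (L i) (zz bad (L i) (k i)) (ζ i) (W i ^ (k i + 1)) :=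
    fun i => comb_zz _ _
  have hVτ : ∀ i < J, V i ≤ τ i := fun i hi =>
    (hcombx i).mono (hGi i hi) (hτ i) (hGi i hi) (fun s => (bonf _ (hkev i) s).1)
  have hτV : ∀ i < J, τ i ≤ V i + ζ i := fun i hi =>
    (hτ i).mono (hGi i hi) ((hcombx i).add (hz i)) (hGi i hi) (fun s => (bonf _ (hkev i) s).2.1)
  have hmem : ∀ i ∈ range J, i < J := fun i hi => mem_range.mp hi
  set PV : ℝ := ∏ i ∈ range J, V i with hPV
  set Pτ : ℝ := ∏ i ∈ range J, τ i with hPτ
  have hPVpos : 0 < PV := prod_pos fun i hi => hVpos i (hmem i hi)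
  have hPVτ : PV ≤ Pτ :=
    prod_le_prod (fun i hi => (hVpos i (hmem i hi)).le) (fun i hi => hVτ i (hmem i hi))
  have hτpos : ∀ i < J, 0 < τ i := fun i hi => lt_of_lt_of_le (hVpos i hi) (hVτ i hi)
  have hPτpos : 0 < Pτ := lt_of_lt_of_le hPVpos hPVτ
  have hPτV : Pτ ≤ PV * ∏ i ∈ range J, (1 + ε i) := by
    rw [hPV, ← prod_mul_distrib]
    refine prod_le_prod (fun i hi => (hτpos i (hmem i hi)).le) (fun i hi => ?_)
    have h1 := hτV i (hmem i hi)
    have h2 : ζ i ≤ ε i * V i := hζε i (hmem i hi)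
    linarith
  have hW1 : ∀ i, 1 ≤ W i := fun i => by
    simp only [hW]; have : (0 : ℝ) ≤ ∑ b ∈ L i, (ω b : ℝ) := by positivity
    linarith
  set PW : ℝ := ∏ i ∈ range J, W i ^ (k i + 1) with hPW
  set PW' : ℝ := ∏ i ∈ range J, W i ^ (k i) with hPW'
  have hPWτ : PW' ≤ PW :=
    prod_le_prod (fun i _ => by have := hW1 i; positivity)
      (fun i _ => pow_le_pow_right₀ (hW1 i) (by omega))
  have hPWl : ∀ l, ∏ i ∈ range J, (if i = l then W i ^ (k i + 1) else W i ^ (k i)) ≤ PW := by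
    intro l
    refine prod_le_prod (fun i _ => by have := hW1 i; split_ifs <;> positivity) (fun i _ => ?_)
    split_ifs
    · exact le_rfl
    · exact pow_le_pow_right₀ (hW1 i) (by omega)
  set RB : ℝ := ∏ b ∈ B, (1 + (ω b : ℝ)) with hRB
  have hRB0 : 0 ≤ RB := prod_nonneg fun b _ => by positivity
  have hPW0 : 0 ≤ PW := prod_nonneg fun i _ => by have := hW1 i; positivity
  have hPW'0 : 0 ≤ PW' := prod_nonneg fun i _ => by have := hW1 i; positivity
  have hcount : (#((range N).filter (Avoid bad D)) : ℝ) =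
      ∑ s ∈ range N, xx bad B s * ∏ i ∈ range J, xx bad (L i) s := by
    rw [← sum_ind]
    exact sum_congr rfl fun s _ => hxtot s
  have hGtot : Good bad ω (B ∪ (range J).biUnion L) := by rw [← hDeq]; exact hG
  have hfull : Comb bad ω B (xx bad B) VB RB := comb_full B
  have hcombτ := hfull.mul (Comb.prod (J := J) (fun i _ => hτ i) hdl) hdB
  have hcomb1 := hcombτ.sum hGtot N
  have hJ0 : (0 : ℝ) ≤ J := by positivity
  rw [hVtot]
  have hbonf := fun s i => bonf (bad := bad) (L i) (hkev i) s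
  constructor
  · have hlow : ∀ s, xx bad B s * ∏ i ∈ range J, yy bad (L i) (k i) s -
        ∑ l ∈ range J, xx bad B s * ∏ i ∈ range J,
          (if i = l then zz bad (L i) (k i) s else yy bad (L i) (k i) s) ≤
        xx bad B s * ∏ i ∈ range J, xx bad (L i) s := by
      intro s
      have h1 := (hooley (J := J) (x := fun i => xx bad (L i) s)
        (y := fun i => yy bad (L i) (k i) s) (z := fun i => zz bad (L i) (k i) s)
        (fun i _ => xx_nonneg _ _) (fun i _ => (hbonf s i).1)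
        (fun i _ => (hbonf s i).2.1) (fun i _ => (hbonf s i).2.2)).2
      have h2 := mul_le_mul_of_nonneg_left h1 (xx_nonneg (bad := bad) B s)
      rw [← mul_sum, ← mul_sub]
      exact h2
    have hcombl : ∀ l, |∑ s ∈ range N, xx bad B s * ∏ i ∈ range J,
          (if i = l then zz bad (L i) (k i) s else yy bad (L i) (k i) s) -
          N * (VB * ∏ i ∈ range J, (if i = l then ζ i else τ i))| ≤ RB * PW := by
      intro l
      have h1 : ∀ i < J, Comb bad ω (L i)
          (fun s => if i = l then zz bad (L i) (k i) s else yy bad (L i) (k i) s)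
          (if i = l then ζ i else τ i)
          (if i = l then W i ^ (k i + 1) else W i ^ (k i)) := by
        intro i _
        by_cases h : i = l
        · simp only [if_pos h]; exact hz i
        · simp only [if_neg h]; exact hτ i
      have h2 := (hfull.mul (Comb.prod h1 hdl) hdB).weaken
        (mul_le_mul_of_nonneg_left (hPWl l) hRB0)
      exact h2.sum hGtot N
    have hlterm : ∀ l ∈ range J, ∏ i ∈ range J, (if i = l then ζ i else τ i) ≤ ε l * Pτ := by
      intro l hl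
      have h1 : ∏ i ∈ range J, (if i = l then ζ i else τ i) =
          ζ l * ∏ i ∈ (range J).erase l, τ i := by
        rw [← mul_prod_erase _ _ hl, if_pos rfl]
        congr 1
        refine prod_congr rfl fun i hi => ?_
        rw [if_neg (ne_of_mem_erase hi)]
      have h2 : Pτ = τ l * ∏ i ∈ (range J).erase l, τ i := by
        rw [hPτ, mul_prod_erase _ _ hl]
      rw [h1, h2]
      have h3 : 0 ≤ ∏ i ∈ (range J).erase l, τ i :=
        prod_nonneg fun i hi => (hτpos i (hmem i (mem_of_mem_erase hi))).le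
      have h4 : ζ l ≤ ε l * τ l := (hζε l (hmem l hl)).trans
        (mul_le_mul_of_nonneg_left (hVτ l (hmem l hl)) (hε0 l))
      nlinarith [mul_le_mul_of_nonneg_right h4 h3]
    rw [hcount]
    rcases le_or_gt 0 (1 - ∑ i ∈ range J, ε i) with hsgn | hsgn
    swap
    · have h11 : (N : ℝ) * (VB * PV) * (1 - ∑ i ∈ range J, ε i) ≤ 0 :=
        mul_nonpos_of_nonneg_of_nonpos (by positivity) hsgn.le
      have h12 : 0 ≤ ((J : ℝ) + 1) * (RB * PW) := by positivity
      have h13 : 0 ≤ ∑ s ∈ range N, xx bad B s * ∏ i ∈ range J, xx bad (L i) s :=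
        sum_nonneg fun s _ => mul_nonneg (xx_nonneg _ _) (prod_nonneg fun i _ => xx_nonneg _ _)
      linarith
    have h1 : ∑ s ∈ range N, xx bad B s * ∏ i ∈ range J, yy bad (L i) (k i) s -
        ∑ l ∈ range J, ∑ s ∈ range N, xx bad B s * ∏ i ∈ range J,
          (if i = l then zz bad (L i) (k i) s else yy bad (L i) (k i) s) ≤
        ∑ s ∈ range N, xx bad B s * ∏ i ∈ range J, xx bad (L i) s := by
      rw [sum_comm, ← sum_sub_distrib]
      exact sum_le_sum fun s _ => hlow s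
    refine le_trans ?_ h1
    have h2 : ∑ l ∈ range J, ∑ s ∈ range N, xx bad B s * ∏ i ∈ range J,
          (if i = l then zz bad (L i) (k i) s else yy bad (L i) (k i) s) ≤
        ∑ l ∈ range J, (N * (VB * (ε l * Pτ)) + RB * PW) := by
      refine sum_le_sum fun l hl => ?_
      have h3 := (abs_le.mp (hcombl l)).2
      have h4 : (N : ℝ) * (VB * ∏ i ∈ range J, (if i = l then ζ i else τ i)) ≤
          N * (VB * (ε l * Pτ)) := by
        have := hlterm l hl
        gcongr
      linarith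
    have h3 : ∑ l ∈ range J, (N * (VB * (ε l * Pτ)) + RB * PW) =
        N * (VB * Pτ) * (∑ l ∈ range J, ε l) + J * (RB * PW) := by
      rw [sum_add_distrib, sum_const, card_range, nsmul_eq_mul, mul_sum]
      congr 1
      exact sum_congr rfl fun l _ => by ring
    have h4 := (abs_le.mp hcomb1).1
    have h5 : RB * PW' ≤ RB * PW := by gcongr
    have h9 : (N : ℝ) * (VB * Pτ) - RB * PW' ≤
        ∑ s ∈ range N, xx bad B s * ∏ i ∈ range J, yy bad (L i) (k i) s := by
      linarith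
    rw [h3] at h2
    have h10 : (N : ℝ) * (VB * PV) * (1 - ∑ i ∈ range J, ε i) ≤
        N * (VB * Pτ) * (1 - ∑ i ∈ range J, ε i) := by
      have : (N : ℝ) * (VB * PV) ≤ N * (VB * Pτ) := by gcongr
      exact mul_le_mul_of_nonneg_right this hsgn
    linarith
  · rw [hcount]
    have h1 : ∑ s ∈ range N, xx bad B s * ∏ i ∈ range J, xx bad (L i) s ≤
        ∑ s ∈ range N, xx bad B s * ∏ i ∈ range J, yy bad (L i) (k i) s := by
      refine sum_le_sum fun s _ => mul_le_mul_of_nonneg_left ?_ (xx_nonneg _ _)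
      exact prod_le_prod (fun i _ => xx_nonneg _ _) (fun i _ => (hbonf s i).1)
    refine h1.trans ?_
    have h4 := (abs_le.mp hcomb1).2
    have h6 : (N : ℝ) * (VB * Pτ) ≤ N * (VB * (PV * ∏ i ∈ range J, (1 + ε i))) := by gcongr
    linarith

end Pool.Agent.H52G
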