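import Pool.Agent.H52G.Prod

/-!
# Counting
-/

set_option autoImplicit false

namespace Pool.Agent.H52G

open Finset Classical Pool.Agent.H14Trans Filter Topology

/-- the lower sieving level -/
noncomputable def za (H : ℕ) : ℕ := ⌊(H : ℝ) ^ (1 / 20 : ℝ)⌋₊

/-- the upper sieving level -/
noncomputable def zb (H : ℕ) : ℕ := ⌊(H : ℝ) ^ (10 / 161 : ℝ)⌋₊

lemma tendsto_floor_rpow {s : ℝ} (hs : 0 < s) :
    Tendsto (fun H : ℕ => ⌊(H : ℝ) ^ s⌋₊) atTop atTop :=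
  tendsto_nat_floor_atTop.comp ((tendsto_rpow_atTop hs).comp tendsto_natCast_atTop_atTop)

lemma log_small {c : ℝ} (hc : 0 < c) :
    ∀ᶠ H : ℕ in atTop, 3 * (H : ℝ) ^ (0.997 : ℝ) * Real.log H ^ 3 ≤ c * H := by
  have h1 := isLittleO_log_rpow_rpow_atTop (s := (0.003 : ℝ)) (3 : ℝ) (by norm_num)
  have h2 := (h1.def (show 0 < c / 3 by positivity))
  have h3 := tendsto_natCast_atTop_atTop (R := ℝ) |>.eventually h2
  filter_upwards [h3, eventually_ge_atTop 2] with H h4 h5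
  have hH : (2 : ℝ) ≤ H := by exact_mod_cast h5
  have hL : 0 ≤ Real.log H := Real.log_nonneg (by linarith)
  rw [Real.norm_of_nonneg (by positivity), Real.norm_of_nonneg (by positivity)] at h4
  have h6 : Real.log H ^ (3 : ℝ) = Real.log H ^ 3 := by
    rw [show (3 : ℝ) = ((3 : ℕ) : ℝ) by norm_num, Real.rpow_natCast]
  rw [h6] at h4
  have h7 : (H : ℝ) ^ (0.997 : ℝ) * (H : ℝ) ^ (0.003 : ℝ) = H := by
    rw [← Real.rpow_add (by linarith)]
    norm_num
  have h8 : (0 : ℝ) ≤ (H : ℝ) ^ (0.997 : ℝ) := by positivity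
  calc 3 * (H : ℝ) ^ (0.997 : ℝ) * Real.log H ^ 3
      ≤ 3 * (H : ℝ) ^ (0.997 : ℝ) * (c / 3 * (H : ℝ) ^ (0.003 : ℝ)) := by gcongr
    _ = c * ((H : ℝ) ^ (0.997 : ℝ) * (H : ℝ) ^ (0.003 : ℝ)) := by ring
    _ = c * H := by rw [h7]

lemma exp_small : Real.exp 0.0054 ≤ 1.0055 := by
  have := Real.exp_bound' (x := 0.0054) (by norm_num) (by norm_num) (n := 2) (by norm_num)
  refine this.trans ?_
  norm_num [Finset.sum_range_succ, Nat.factorial]

/-- the key comparison of the two sieve products -/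
lemma V_zb_le {H : ℕ} (h7 : 7 ≤ za H) (hL : 100000 ≤ Real.log H) :
    V (zb H) ≤ 0.525 * V (za H) := by
  have hH0 : (0 : ℝ) < H := by
    rcases Nat.eq_zero_or_pos H with h | h
    · rw [h] at hL; norm_num at hL
    · exact_mod_cast h
  have hH1 : (1 : ℝ) ≤ H := by
    have : 0 < H := by exact_mod_cast hH0
    exact_mod_cast this
  have hab : za H ≤ zb H := by
    unfold za zb
    refine Nat.floor_le_floor ?_
    exact Real.rpow_le_rpow_of_exponent_le hH1 (by norm_num)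
  refine (V_ratio h7 hab).trans ?_
  rw [mul_comm (0.525 : ℝ)]
  refine mul_le_mul_of_nonneg_left ?_ (V_pos _).le
  have ha1 : ((za H + 1 : ℕ) : ℝ) ≤ 2 * (H : ℝ) ^ (1 / 20 : ℝ) := by
    have h1 : (za H : ℝ) ≤ (H : ℝ) ^ (1 / 20 : ℝ) := Nat.floor_le (by positivity)
    have h2 : (1 : ℝ) ≤ (H : ℝ) ^ (1 / 20 : ℝ) := Real.one_le_rpow hH1 (by norm_num)
    push_cast
    linarith
  have ha2 : (H : ℝ) ^ (1 / 20 : ℝ) ≤ ((za H + 1 : ℕ) : ℝ) := by
    push_cast
    exact (Nat.lt_floor_add_one _).le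
  have hb2 : (H : ℝ) ^ (10 / 161 : ℝ) ≤ ((zb H + 1 : ℕ) : ℝ) := by
    push_cast
    exact (Nat.lt_floor_add_one _).le
  have la1 : Real.log ((za H + 1 : ℕ) : ℝ) ≤ Real.log H / 20 + 0.7 := by
    have h1 := Real.log_le_log (by positivity) ha1
    rw [Real.log_mul (by norm_num) (by positivity), Real.log_rpow hH0] at h1
    have := Real.log_two_lt_d9
    linarith
  have la2 : Real.log H / 20 ≤ Real.log ((za H + 1 : ℕ) : ℝ) := by
    have h1 := Real.log_le_log (by positivity) ha2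
    rw [Real.log_rpow hH0] at h1
    linarith
  have lb2 : 10 * Real.log H / 161 ≤ Real.log ((zb H + 1 : ℕ) : ℝ) := by
    have h1 := Real.log_le_log (by positivity) hb2
    rw [Real.log_rpow hH0] at h1
    linarith
  set la := Real.log ((za H + 1 : ℕ) : ℝ)
  set lb := Real.log ((zb H + 1 : ℕ) : ℝ)
  have hla : 0 < la := by linarith
  have hlb : 0 < lb := by linarith
  have h1 : la / lb ≤ 0.8052 := by
    rw [div_le_iff₀ hlb]
    linarith
  have h2 : (la / lb) ^ 3 ≤ 0.8052 ^ 3 := pow_le_pow_left₀ (by positivity) h1 3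
  have h3 : Real.exp (27 / la) ≤ 1.0055 := by
    refine le_trans ?_ exp_small
    rw [Real.exp_le_exp, div_le_iff₀ hla]
    linarith
  calc (la / lb) ^ 3 * Real.exp (27 / la) ≤ 0.8052 ^ 3 * 1.0055 := by gcongr
    _ ≤ 0.525 := by norm_num

lemma rpow_floor_le {H : ℕ} {s t r : ℝ} (hH : 1 ≤ H) (ht : 0 ≤ t)
    (hst : s * t ≤ r) : ((⌊(H : ℝ) ^ s⌋₊ : ℕ) : ℝ) ^ t ≤ (H : ℝ) ^ r := by
  have hH1 : (1 : ℝ) ≤ H := by exact_mod_cast hH
  calc ((⌊(H : ℝ) ^ s⌋₊ : ℕ) : ℝ) ^ t ≤ ((H : ℝ) ^ s) ^ t :=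
        Real.rpow_le_rpow (by positivity) (Nat.floor_le (by positivity)) ht
    _ = (H : ℝ) ^ (s * t) := by rw [← Real.rpow_mul (by linarith)]
    _ ≤ (H : ℝ) ^ r := Real.rpow_le_rpow_of_exponent_le hH1 hst

theorem count : ∃ κ : ℝ, 0 < κ ∧ ∀ᶠ H : ℕ in atTop, ∀ e : ℕ,
    κ * (H / Real.log H ^ 3) ≤ (cnt e (za H) (H / 30) : ℝ) - cnt e (zb H) (H / 30) - zb H := by
  obtain ⟨z₀, hz₀⟩ := sieve
  refine ⟨0.0005 * Real.exp (-45), by positivity, ?_⟩
  have e1 : ∀ᶠ H : ℕ in atTop, max z₀ 7 ≤ za H :=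
    (tendsto_floor_rpow (show (0 : ℝ) < 1 / 20 by norm_num)).eventually_ge_atTop _
  have e3 : ∀ᶠ H : ℕ in atTop, (100000 : ℝ) ≤ Real.log H :=
    (Real.tendsto_log_atTop.comp tendsto_natCast_atTop_atTop).eventually_ge_atTop _
  have e4 := log_small (show 0 < 0.0003 * Real.exp (-45) by positivity)
  filter_upwards [e1, e3, e4, eventually_ge_atTop 2000] with H h1 h3 h4 h5 e
  have hz7 : 7 ≤ za H := le_trans (le_max_right _ _) h1
  have hzz : z₀ ≤ za H := le_trans (le_max_left _ _) h1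
  have hH1 : (1 : ℝ) ≤ H := by exact_mod_cast (by omega : 1 ≤ H)
  have hab : za H ≤ zb H := by
    unfold za zb
    refine Nat.floor_le_floor ?_
    exact Real.rpow_le_rpow_of_exponent_le hH1 (by norm_num)
  have hlow := (hz₀ (za H) hzz e (H / 30)).1
  have hupp := (hz₀ (zb H) (hzz.trans hab) e (H / 30)).2
  have hV := V_zb_le hz7 h3
  have hM : (H : ℝ) / 31 ≤ ((H / 30 : ℕ) : ℝ) := by
    have h6 : H < 30 * (H / 30 + 1) := by omega
    have h7 : (H : ℝ) < 30 * (((H / 30 : ℕ) : ℝ) + 1) := by exact_mod_cast h6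
    have h8 : (2000 : ℝ) ≤ H := by exact_mod_cast h5
    linarith
  set M : ℝ := ((H / 30 : ℕ) : ℝ) with hMdef
  have hM0 : 0 ≤ M := by positivity
  have r1 : ((za H : ℕ) : ℝ) ^ (18.05 : ℝ) ≤ (H : ℝ) ^ (0.997 : ℝ) :=
    rpow_floor_le (by omega) (by norm_num) (by norm_num)
  have r2 : ((zb H : ℕ) : ℝ) ^ (16.05 : ℝ) ≤ (H : ℝ) ^ (0.997 : ℝ) :=
    rpow_floor_le (by omega) (by norm_num) (by norm_num)
  have r3 : ((zb H : ℕ) : ℝ) ≤ (H : ℝ) ^ (0.997 : ℝ) := by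
    have := rpow_floor_le (H := H) (s := 10 / 161) (t := 1) (r := 0.997) (by omega) (by norm_num)
      (by norm_num)
    rwa [Real.rpow_one] at this
  have hl1 : Real.log ((za H + 1 : ℕ) : ℝ) ≤ Real.log H := by
    refine Real.log_le_log (by positivity) ?_
    have h8 : za H + 1 ≤ H := by
      have h9 : (za H : ℝ) ≤ (H : ℝ) ^ (1 / 20 : ℝ) := Nat.floor_le (by positivity)
      have h10 : (H : ℝ) ^ (1 / 20 : ℝ) ≤ (H : ℝ) ^ (1 / 2 : ℝ) :=
        Real.rpow_le_rpow_of_exponent_le hH1 (by norm_num)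
      have h11 : (H : ℝ) ^ (1 / 2 : ℝ) * (H : ℝ) ^ (1 / 2 : ℝ) = H := by
        rw [← Real.rpow_add (by linarith)]; norm_num
      have h12 : (2000 : ℝ) ≤ H := by exact_mod_cast h5
      set x := (H : ℝ) ^ (1 / 2 : ℝ)
      have h13 : 0 ≤ x := by positivity
      have h14 : (za H : ℝ) + 1 ≤ H := by nlinarith
      exact_mod_cast h14
    exact_mod_cast h8
  have hl0 : 0 < Real.log ((za H + 1 : ℕ) : ℝ) := by
    have := log_seven
    have h8 : Real.log ((7 : ℕ) : ℝ) ≤ Real.log ((za H + 1 : ℕ) : ℝ) :=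
      Real.log_le_log (by norm_num) (by exact_mod_cast (by omega : 7 ≤ za H + 1))
    linarith
  have hL0 : 0 < Real.log H := by linarith
  have hVge : Real.exp (-45) / Real.log H ^ 3 ≤ V (za H) := by
    refine le_trans ?_ (V_ge hz7)
    gcongr
  have hVp := V_pos (za H)
  have h15 : 1.2987 * (M * V (zb H)) ≤ 0.6819 * (M * V (za H)) := by
    have : M * V (zb H) ≤ M * (0.525 * V (za H)) := mul_le_mul_of_nonneg_left hV hM0
    have h16 : 0 ≤ M * V (za H) := by positivity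
    nlinarith
  have h17 : H / 31 * (Real.exp (-45) / Real.log H ^ 3) ≤ M * V (za H) := by gcongr
  have h18 : 3 * (H : ℝ) ^ (0.997 : ℝ) ≤ 0.0003 * Real.exp (-45) * (H / Real.log H ^ 3) := by
    rw [← mul_div_assoc, le_div_iff₀ (by positivity)]
    linarith
  have h19 : H / 31 * (Real.exp (-45) / Real.log H ^ 3) =
      Real.exp (-45) / 31 * (H / Real.log H ^ 3) := by ring
  rw [h19] at h17
  have h20 : 0 ≤ Real.exp (-45) * (H / Real.log H ^ 3) := by positivity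
  nlinarith

end Pool.Agent.H52G
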