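import Pool.Agent.H52G.Count
import Pool.Agent.H7.GR.Potential

/-!
# The first jump
-/

set_option autoImplicit false

namespace Pool.Agent.H52G

open Finset Classical Pool.Agent.H14Trans Pool.Agent.H5.GR Pool.Agent.H7.GR

/-- if `N - 4`, `N - 2`, `N + 2` have no prime factor up to `z` and are not all prime, then the
first jump costs more than `z` -/
lemma first_jump {N z : ℕ} (hN : 45 ≤ N) (hmod : N % 30 = 15)
    (hz : ∀ p ∈ DD z, ∀ a ∈ ({0, 2, 6} : Finset ℕ), ¬ p ∣ (N - 4) + a) (ht : ¬ Tri (N - 4)) :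
    f N + z + 5 ≤ N := by
  have hN6 : 6 ≤ N := by omega
  have hS1 := S_one N hN6
  obtain ⟨hf1, hf0⟩ := f_spec N hN6
  have hSf := S_f N hN6
  by_cases hcase : ∃ k, 1 ≤ k ∧ k < f N ∧ S N k = N - 4 ∧ 2 ≤ g N k
  · obtain ⟨k, hk1, hk2, hk3, hk4⟩ := hcase
    have h1 := g_dvd_left N hN6 k hk1 hk2
    rw [hk3] at h1
    have hg1 : g N k ≠ 1 := by omega
    set p := (g N k).minFac with hp
    have hpp : p.Prime := Nat.minFac_prime hg1
    have hpg : p ∣ g N k := Nat.minFac_dvd _
    have hple : p ≤ g N k := Nat.le_of_dvd (by omega) hpg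
    have hpd : p ∣ (N - 4) + b (k + 1) := hpg.trans h1
    have hbm : b (k + 1) ∈ ({0, 2, 6} : Finset ℕ) := by
      rcases b_cases (k + 1) with h | h | h <;> rw [h.2] <;> simp
    have hzp : z < p := by
      by_contra hcon
      push Not at hcon
      have hp6 : ¬ 6 < p := by
        intro h6
        exact hz p (mem_DD.mpr ⟨⟨h6, hcon⟩, hpp⟩) _ hbm hpd
      have hp2 := hpp.two_le
      have hb3 : b (k + 1) = 0 ∨ b (k + 1) = 2 ∨ b (k + 1) = 6 := by
        rcases b_cases (k + 1) with h | h | h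
        · exact Or.inl h.2
        · exact Or.inr (Or.inl h.2)
        · exact Or.inr (Or.inr h.2)
      have hcases : p = 2 ∨ p = 3 ∨ p = 4 ∨ p = 5 ∨ p = 6 := by omega
      rcases hcases with h | h | h | h | h
      · rw [h] at hpd; omega
      · rw [h] at hpd; omega
      · rw [h] at hpp; exact absurd hpp (by decide)
      · rw [h] at hpd; omega
      · rw [h] at hpp; exact absurd hpp (by decide)
    have h2 := S_succ N hN6 k hk1 hk2
    have h3 := S_anti N hN6 (k + 1) (f N) (by omega) (by omega) le_rfl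
    omega
  · exfalso
    push Not at hcase
    have key : ∀ k, 1 ≤ k → k ≤ f N → S N k = N - 4 := by
      intro k hk
      induction k, hk using Nat.le_induction with
      | base => intro _; omega
      | succ k hk ih =>
        intro hkf
        have h0 := ih (by omega)
        have h1 := hcase k hk (by omega) h0
        have h2 := g_pos N k
        have h3 := S_succ N hN6 k hk (by omega)
        omega
    have h1 := key (f N) hf1 le_rfl
    have hfN : f N + 5 = N := by omega
    have hq : Nat.sqrt (N + 2) * Nat.sqrt (N + 2) ≤ N + 2 := Nat.sqrt_le (N + 2)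
    have h2 := triple_or_small N hN6 (by
      set q := Nat.sqrt (N + 2)
      rcases Nat.lt_or_ge q 5 with h | h
      · omega
      · have : 5 * q ≤ q * q := Nat.mul_le_mul_right q h
        omega)
    apply ht
    have h3 : N - 4 = f N + 1 := by omega
    rw [h3]
    exact h2

lemma tri_count {e : ℕ} (he : 1 ≤ e) (z M : ℕ) :
    #((range M).filter (fun s => Tri (30 * s + e))) ≤ cnt e z M + z := by
  have hsub : (range M).filter (fun s => Tri (30 * s + e)) ⊆
      (range M).filter (Avoid (bd 30 e {0, 2, 6}) (DD z)) ∪ range z := by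
    intro s hs
    rw [mem_filter] at hs
    rw [mem_union, mem_filter, mem_range (n := z)]
    by_cases hsz : 30 * s + e ≤ z
    · right; omega
    · left
      refine ⟨hs.1, ?_⟩
      intro p hp hbad
      obtain ⟨⟨hp1, hp2⟩, hpp⟩ := mem_DD.mp hp
      obtain ⟨a, ha, hdv⟩ := hbad
      have hpr : (30 * s + (e + a)).Prime := by
        simp only [mem_insert, mem_singleton] at ha
        rcases ha with h | h | h <;> subst h
        · exact hs.2.1
        · exact hs.2.2.1
        · exact hs.2.2.2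
      rcases (Nat.dvd_prime hpr).mp hdv with h | h
      · omega
      · omega
  refine (card_le_card hsub).trans ((card_union_le _ _).trans ?_)
  rw [card_range]
  rfl

lemma exists_e (X : ℕ) : ∃ e : ℕ, e % 30 = 11 ∧ X < e + 4 ∧ e + 4 ≤ X + 30 := by
  by_cases h : X < 15
  · exact ⟨11, by norm_num, by omega, by omega⟩
  · exact ⟨11 + 30 * ((X - 15) / 30 + 1), by omega, by omega, by omega⟩

theorem power_deficit : ∃ κ : ℝ, 0 < κ ∧ ∃ H₀ : ℕ, ∀ X H : ℕ, H₀ ≤ H →
    κ * (H / Real.log H ^ 3) ≤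
      (#((Ioc X (X + H)).filter
        (fun N : ℕ => 6 ≤ N ∧ (H : ℝ) ^ (1 / 20 : ℝ) ≤ (N : ℝ) - f N)) : ℝ) := by
  obtain ⟨κ, hκ, hcount⟩ := count
  obtain ⟨H₀, hH₀⟩ := Filter.eventually_atTop.mp hcount
  refine ⟨κ, hκ, H₀, fun X H hH => ?_⟩
  obtain ⟨e, he1, he2, he3⟩ := exists_e X
  refine (hH₀ H hH e).trans ?_
  set A := (range (H / 30)).filter (Avoid (bd 30 e {0, 2, 6}) (DD (za H))) with hA
  set T := (range (H / 30)).filter (fun s => Tri (30 * s + e)) with hT
  have h1 : #T ≤ cnt e (zb H) (H / 30) + zb H := tri_count (by omega) _ _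
  have h2 : #A ≤ #(A \ T) + #T := by
    have := card_le_card_sdiff_add_card (s := A) (t := T)
    omega
  have h3 : cnt e (za H) (H / 30) = #A := rfl
  have hinj : Function.Injective (fun s : ℕ => 30 * s + e + 4) := by
    intro s t hst
    simp only at hst
    omega
  have hsub : (A \ T).image (fun s : ℕ => 30 * s + e + 4) ⊆
      (Ioc X (X + H)).filter
        (fun N : ℕ => 6 ≤ N ∧ (H : ℝ) ^ (1 / 20 : ℝ) ≤ (N : ℝ) - f N) := by
    intro N hN
    rw [mem_image] at hN
    obtain ⟨s, hs, rfl⟩ := hN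
    rw [mem_sdiff, hA, hT, mem_filter, mem_filter, mem_range] at hs
    obtain ⟨⟨hsM, hav⟩, hnt⟩ := hs
    have hnt' : ¬ Tri (30 * s + e) := fun h => hnt ⟨hsM, h⟩
    have h45 : 45 ≤ 30 * s + e + 4 := by
      by_contra hcon
      push Not at hcon
      have hs0 : s = 0 := by omega
      have he11 : e = 11 := by omega
      apply hnt'
      rw [hs0, he11]
      exact ⟨by norm_num, by norm_num, by norm_num⟩
    have hsub4 : 30 * s + e + 4 - 4 = 30 * s + e := by omega
    have hj := first_jump (N := 30 * s + e + 4) (z := za H) h45 (by omega) (by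
      intro p hp a ha hdv
      apply hav p hp
      refine ⟨a, ha, ?_⟩
      rw [hsub4] at hdv
      rw [← add_assoc]
      exact hdv) (by rw [hsub4]; exact hnt')
    rw [mem_filter, mem_Ioc]
    refine ⟨⟨by omega, by omega⟩, by omega, ?_⟩
    have h4 : (H : ℝ) ^ (1 / 20 : ℝ) < (za H : ℝ) + 1 := Nat.lt_floor_add_one _
    have h5 : ((f (30 * s + e + 4) : ℕ) : ℝ) + (za H : ℝ) + 5 ≤ ((30 * s + e + 4 : ℕ) : ℝ) := by
      exact_mod_cast hj
    linarith
  have h6 := card_le_card hsub
  rw [card_image_of_injective _ hinj] at h6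
  have h7 : cnt e (za H) (H / 30) ≤
      #((Ioc X (X + H)).filter
        (fun N : ℕ => 6 ≤ N ∧ (H : ℝ) ^ (1 / 20 : ℝ) ≤ (N : ℝ) - f N)) +
        (cnt e (zb H) (H / 30) + zb H) := by omega
  have h8 : (cnt e (za H) (H / 30) : ℝ) ≤
      (#((Ioc X (X + H)).filter
        (fun N : ℕ => 6 ≤ N ∧ (H : ℝ) ^ (1 / 20 : ℝ) ≤ (N : ℝ) - f N)) : ℝ) +
        ((cnt e (zb H) (H / 30) : ℝ) + (zb H : ℝ)) := by exact_mod_cast h7
  linarith

end Pool.Agent.H52G
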