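import Pool.Agent.H52G.BH
import Pool.Agent.TotGap.BT

/-!
# Layers of primes and their reciprocal sums
-/

set_option autoImplicit false

namespace Pool.Agent.H52G

open Finset Classical Pool.Agent.H14Trans

/-- primes in `(6, z]` -/
noncomputable def DD (z : ℕ) : Finset ℕ := (Ioc 6 z).filter Nat.Prime

/-- the layer `p ^ (2 ^ i) ≤ z < p ^ (2 ^ (i + 1))` -/
noncomputable def Lay (z i : ℕ) : Finset ℕ :=
  (DD z).filter (fun p => p ^ (2 ^ i) ≤ z ∧ z < p ^ (2 ^ (i + 1)))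

/-- the base `p ^ (2 ^ J) ≤ z` -/
noncomputable def Base (z J : ℕ) : Finset ℕ := (DD z).filter (fun p => p ^ (2 ^ J) ≤ z)

lemma mem_DD {z p : ℕ} : p ∈ DD z ↔ (6 < p ∧ p ≤ z) ∧ p.Prime := by
  unfold DD; rw [mem_filter, mem_Ioc]

lemma pow_mono_two {p i j : ℕ} (hp : 1 ≤ p) (hij : i ≤ j) : p ^ (2 ^ i) ≤ p ^ (2 ^ j) :=
  Nat.pow_le_pow_right hp (Nat.pow_le_pow_right (by norm_num) hij)

lemma DD_union (z J : ℕ) : DD z = Base z J ∪ (range J).biUnion (Lay z) := by
  ext p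
  rw [mem_union, mem_biUnion]
  constructor
  · intro hp
    by_cases h : p ^ (2 ^ J) ≤ z
    · left
      unfold Base
      rw [mem_filter]
      exact ⟨hp, h⟩
    · right
      push Not at h
      have hex : ∃ i, z < p ^ (2 ^ i) := ⟨J, h⟩
      have h1 := Nat.find_spec hex
      have h2 : Nat.find hex ≤ J := Nat.find_min' hex h
      have h3 : Nat.find hex ≠ 0 := by
        intro h0
        rw [h0] at h1
        simp only [pow_zero, pow_one] at h1
        have := (mem_DD.mp hp).1.2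
        omega
      obtain ⟨i, hi⟩ := Nat.exists_eq_succ_of_ne_zero h3
      have h4 := Nat.find_min hex (m := i) (by omega)
      push Not at h4
      refine ⟨i, mem_range.mpr (by omega), ?_⟩
      unfold Lay
      rw [mem_filter]
      rw [hi] at h1
      exact ⟨hp, h4, h1⟩
  · rintro (h | ⟨i, _, h⟩)
    · unfold Base at h
      exact (mem_filter.mp h).1
    · unfold Lay at h
      exact (mem_filter.mp h).1

lemma DD_pos {z p : ℕ} (hp : p ∈ DD z) : 1 ≤ p := by
  have := (mem_DD.mp hp).1.1; omega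

lemma Lay_disjoint (z : ℕ) {i j : ℕ} (hij : i ≠ j) : Disjoint (Lay z i) (Lay z j) := by
  have key : ∀ i j, i < j → Disjoint (Lay z i) (Lay z j) := by
    intro i j hij
    rw [disjoint_left]
    intro p hp hp'
    unfold Lay at hp hp'
    rw [mem_filter] at hp hp'
    have := pow_mono_two (DD_pos hp.1) (show i + 1 ≤ j by omega)
    omega
  rcases lt_or_gt_of_ne hij with h | h
  · exact key i j h
  · exact (key j i h).symm

lemma Base_disjoint (z J : ℕ) : Disjoint (Base z J) ((range J).biUnion (Lay z)) := by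
  rw [disjoint_left]
  intro p hp hp'
  rw [mem_biUnion] at hp'
  obtain ⟨i, hi, hp'⟩ := hp'
  unfold Base at hp
  unfold Lay at hp'
  rw [mem_filter] at hp hp'
  rw [mem_range] at hi
  have := pow_mono_two (DD_pos hp.1) (show i + 1 ≤ J by omega)
  omega

/-- the end points of a layer -/
lemma lay_ends {Y z i : ℕ} (hY : 2 ≤ Y) (h : Y ^ (2 ^ (i + 1)) ≤ z) :
    ∃ a m : ℕ, Y < a ∧ a ≤ m ∧ Y < m ∧ z < a ^ (2 ^ (i + 1)) ∧ (m - 1) ^ (2 ^ i) ≤ z ∧
      Lay z i ⊆ (Ico a m).filter Nat.Prime := by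
  have hex1 : ∃ a, z < a ^ (2 ^ (i + 1)) := by
    refine ⟨z + 1, ?_⟩
    calc z < z + 1 := by omega
      _ ≤ (z + 1) ^ (2 ^ (i + 1)) := Nat.le_self_pow (by positivity) _
  have hex2 : ∃ m, z < m ^ (2 ^ i) := by
    refine ⟨z + 1, ?_⟩
    calc z < z + 1 := by omega
      _ ≤ (z + 1) ^ (2 ^ i) := Nat.le_self_pow (by positivity) _
  have s1 := Nat.find_spec hex1
  have s2 := Nat.find_spec hex2
  set a := Nat.find hex1 with ha
  set m := Nat.find hex2 with hm
  have ha1 : Y < a := by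
    by_contra hcon
    push Not at hcon
    have := Nat.pow_le_pow_left hcon (2 ^ (i + 1))
    omega
  have hm1 : Y < m := by
    by_contra hcon
    push Not at hcon
    have h1 := Nat.pow_le_pow_left hcon (2 ^ i)
    have h2 := pow_mono_two (p := Y) (by omega) (show i ≤ i + 1 by omega)
    omega
  refine ⟨a, m, ha1, ?_, hm1, s1, ?_, ?_⟩
  · refine Nat.find_min' hex1 (lt_of_lt_of_le s2 ?_)
    exact pow_mono_two (by omega) (by omega)
  · have := Nat.find_min hex2 (m := m - 1) (by omega)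
    omega
  · intro p hp
    unfold Lay at hp
    rw [mem_filter] at hp
    rw [mem_filter, mem_Ico]
    refine ⟨⟨Nat.find_min' hex1 hp.2.2, ?_⟩, (mem_DD.mp hp.1).2⟩
    by_contra hcon
    push Not at hcon
    have := Nat.pow_le_pow_left hcon (2 ^ i)
    omega

lemma log_two_pow_lt {z a n : ℕ} (hz : 1 ≤ z) (h : z < a ^ n) :
    Real.log z < n * Real.log a := by
  have h1 : (z : ℝ) < (a : ℝ) ^ n := by exact_mod_cast h
  have h2 := Real.log_lt_log (by exact_mod_cast hz) h1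
  rwa [Real.log_pow] at h2

lemma log_two_pow_le {z a n : ℕ} (ha : 1 ≤ a) (h : a ^ n ≤ z) :
    n * Real.log a ≤ Real.log z := by
  have h1 : (a : ℝ) ^ n ≤ (z : ℝ) := by exact_mod_cast h
  have h2 := Real.log_le_log (by positivity) h1
  rwa [Real.log_pow] at h2

/-- reciprocal sum of a layer -/
lemma lay_mass {Y z i : ℕ} (hY : 2 ≤ Y) (h : Y ^ (2 ^ (i + 1)) ≤ z) :
    ∑ p ∈ Lay z i, (1 : ℝ) / p ≤ Real.log 2 + 1 / Y + 9 / Real.log Y := by
  obtain ⟨a, m, ha, ham, hm, h1, h2, h3⟩ := lay_ends hY h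
  have hYR : (2 : ℝ) ≤ Y := by exact_mod_cast hY
  have hlY : 0 < Real.log Y := Real.log_pos (by linarith)
  have hl2 := Real.log_two_gt_d9
  have hlYa : Real.log Y ≤ Real.log a := Real.log_le_log (by linarith) (by exact_mod_cast ha.le)
  have hl2Y : Real.log 2 ≤ Real.log Y := Real.log_le_log (by norm_num) hYR
  have hz : 1 ≤ z := le_trans (Nat.one_le_pow _ _ (by omega)) h
  have e1 := log_two_pow_lt hz h1
  have e2 := log_two_pow_le (by omega) h2
  push_cast at e1 e2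
  rw [pow_succ] at e1
  have hm1 : ((m - 1 : ℕ) : ℝ) = (m : ℝ) - 1 := by
    rw [Nat.cast_sub (by omega)]; norm_num
  have hmR : (Y : ℝ) + 1 ≤ m := by exact_mod_cast hm
  have h4 : Real.log ((m - 1 : ℕ) : ℝ) ≤ 2 * Real.log a := by
    have : (0 : ℝ) < 2 ^ i := by positivity
    nlinarith
  have h5 : Real.log m ≤ Real.log ((m - 1 : ℕ) : ℝ) + 1 / Y := by
    have h6 : Real.log m - Real.log ((m - 1 : ℕ) : ℝ) ≤ 1 / Y := by
      rw [hm1, ← Real.log_div (by linarith) (by linarith)]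
      refine (Real.log_le_sub_one_of_pos (div_pos (by linarith) (by linarith))).trans ?_
      have h70 : (m : ℝ) - 1 ≠ 0 := by linarith
      have h7 : (m : ℝ) / (m - 1) - 1 = 1 / (m - 1) := by
        field_simp
        ring
      rw [h7]
      exact one_div_le_one_div_of_le (by linarith) (by linarith)
    linarith
  have hla : 0 < Real.log a := by linarith
  have hlm : 0 < Real.log m := Real.log_pos (by linarith)
  have h8 : Real.log (Real.log m) - Real.log (Real.log a) ≤ Real.log 2 + 1 / Y := by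
    rw [← Real.log_div hlm.ne' hla.ne']
    have h9 : Real.log m / Real.log a ≤ 2 * (1 + 1 / Y) := by
      rw [div_le_iff₀ hla]
      have : (0 : ℝ) < 1 / Y := by positivity
      nlinarith
    have h10 : 0 < Real.log m / Real.log a := by positivity
    refine (Real.log_le_log h10 h9).trans ?_
    rw [Real.log_mul (by norm_num) (by positivity)]
    have h11 := Real.log_le_sub_one_of_pos (show 0 < 1 + 1 / (Y : ℝ) by positivity)
    linarith
  have h12 := (abs_le.mp (Pool.Agent.Sv.abs_sum_inv_sub_le (n := a) (m := m) (by omega) ham)).2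
  have h13 : ∑ p ∈ Lay z i, (1 : ℝ) / p ≤ ∑ p ∈ (Ico a m).filter Nat.Prime, (1 : ℝ) / p :=
    sum_le_sum_of_subset_of_nonneg h3 (fun p _ _ => by positivity)
  have h14 : 9 / Real.log a ≤ 9 / Real.log Y := by gcongr
  linarith

/-- the number of primes in a layer -/
lemma lay_card {Y z i : ℕ} (hY : 2 ≤ Y) (h : Y ^ (2 ^ (i + 1)) ≤ z) :
    Real.log (1 + 3 * (#(Lay z i) : ℝ)) ≤ Real.log 4 + Real.log z / 2 ^ i := by
  obtain ⟨a, m, ha, ham, hm, h1, h2, h3⟩ := lay_ends hY h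
  have h4 : #(Lay z i) ≤ m - 1 := by
    refine (card_le_card h3).trans ((card_filter_le _ _).trans ?_)
    rw [Nat.card_Ico]
    omega
  have h5 : (#(Lay z i) : ℝ) ≤ ((m - 1 : ℕ) : ℝ) := by exact_mod_cast h4
  have h6 : (1 : ℝ) ≤ ((m - 1 : ℕ) : ℝ) := by
    have : 1 ≤ m - 1 := by omega
    exact_mod_cast this
  have h7 : Real.log (1 + 3 * (#(Lay z i) : ℝ)) ≤ Real.log (4 * ((m - 1 : ℕ) : ℝ)) :=
    Real.log_le_log (by positivity) (by linarith)
  rw [Real.log_mul (by norm_num) (by linarith)] at h7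
  have e2 := log_two_pow_le (by omega) h2
  push_cast at e2
  have h8 : Real.log ((m - 1 : ℕ) : ℝ) ≤ Real.log z / 2 ^ i := by
    rw [le_div_iff₀ (by positivity)]
    linarith
  linarith

lemma one_sub_ge' {x : ℝ} (h0 : 0 ≤ x) (h1 : x ≤ 1 / 2) : Real.exp (-(x + 2 * x ^ 2)) ≤ 1 - x := by
  have h2 : (0 : ℝ) < 1 - x := by linarith
  rw [← Real.le_log_iff_exp_le h2]
  refine le_trans ?_ (Real.one_sub_inv_le_log_of_pos h2)
  have h3 : (1 - x)⁻¹ ≤ 1 + (x + 2 * x ^ 2) := by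
    rw [inv_le_iff_one_le_mul₀ h2]
    nlinarith [mul_nonneg h0 h0, mul_nonneg (mul_nonneg h0 h0) (by linarith : 0 ≤ 1 - 2 * x)]
  linarith

/-- lower bound for the product over a layer -/
lemma prod_ge {F : Finset ℕ} {δ Λ : ℝ} (hδ0 : 0 ≤ δ) (hδ : δ ≤ 1 / 2) (h : ∀ p ∈ F, (3 : ℝ) / p ≤ δ)
    (hs : ∑ p ∈ F, (3 : ℝ) / p ≤ Λ) :
    Real.exp (-(Λ * (1 + 2 * δ))) ≤ ∏ p ∈ F, (1 - (3 : ℝ) / p) := by
  calc Real.exp (-(Λ * (1 + 2 * δ)))
      ≤ Real.exp (-∑ p ∈ F, ((3 : ℝ) / p + 2 * ((3 : ℝ) / p) ^ 2)) := by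
        rw [Real.exp_le_exp, neg_le_neg_iff]
        calc ∑ p ∈ F, ((3 : ℝ) / p + 2 * ((3 : ℝ) / p) ^ 2)
            ≤ ∑ p ∈ F, (3 : ℝ) / p * (1 + 2 * δ) := by
              refine sum_le_sum fun p hp => ?_
              have h1 := h p hp
              have h2 : (0 : ℝ) ≤ 3 / p := by positivity
              nlinarith
          _ = (∑ p ∈ F, (3 : ℝ) / p) * (1 + 2 * δ) := by rw [sum_mul]
          _ ≤ Λ * (1 + 2 * δ) := mul_le_mul_of_nonneg_right hs (by linarith)
    _ = ∏ p ∈ F, Real.exp (-((3 : ℝ) / p + 2 * ((3 : ℝ) / p) ^ 2)) := by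
        rw [← sum_neg_distrib, Real.exp_sum]
    _ ≤ ∏ p ∈ F, (1 - (3 : ℝ) / p) := by
        refine prod_le_prod (fun p _ => (Real.exp_pos _).le) (fun p hp => ?_)
        exact one_sub_ge' (by positivity) ((h p hp).trans hδ)

end Pool.Agent.H52G
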