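import Pool.Agent.H52G.Layers

/-!
# Numerical constants of the sieve
-/

set_option autoImplicit false

namespace Pool.Agent.H52G

open Finset Classical Pool.Agent.H14Trans

/-- relative error of the layers -/
noncomputable def eps (i : ℕ) : ℝ := 0.2749 * (1 / 16) ^ i

lemma eps_nonneg (i : ℕ) : 0 ≤ eps i := by unfold eps; positivity

lemma exp_bound : Real.exp 2.09 ≤ 8.086 := by
  have h1 : Real.exp 0.09 ≤ 1.0943 := by
    have := Real.exp_bound' (x := 0.09) (by norm_num) (by norm_num) (n := 4) (by norm_num)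
    refine this.trans ?_
    norm_num [Finset.sum_range_succ, Nat.factorial]
  have h2 : Real.exp 1 ≤ 2.7182818286 := Real.exp_one_lt_d9.le
  have h3 : Real.exp 2.09 = Real.exp 1 * Real.exp 1 * Real.exp 0.09 := by
    rw [← Real.exp_add, ← Real.exp_add]; norm_num
  rw [h3]
  have h4 : Real.exp 1 * Real.exp 1 ≤ 2.7182818286 * 2.7182818286 := by
    have := Real.exp_pos 1
    nlinarith
  calc Real.exp 1 * Real.exp 1 * Real.exp 0.09
      ≤ (2.7182818286 * 2.7182818286) * 1.0943 := by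
        refine mul_le_mul h4 h1 (Real.exp_pos _).le (by norm_num)
    _ ≤ 8.086 := by norm_num

lemma term_bound (i : ℕ) :
    Real.exp 2.09 * (2.085 ^ (6 + 2 * i + 1) / ((6 + 2 * i + 1).factorial : ℝ)) ≤ eps i := by
  induction i with
  | zero =>
    have h := exp_bound
    unfold eps
    simp only [mul_zero, add_zero, pow_zero, mul_one]
    calc Real.exp 2.09 * (2.085 ^ (6 + 1) / ((6 + 1).factorial : ℝ))
        ≤ 8.086 * (2.085 ^ (6 + 1) / ((6 + 1).factorial : ℝ)) := by gcongr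
      _ ≤ 0.2749 := by norm_num [Nat.factorial]
  | succ i ih =>
    have e1 : 6 + 2 * (i + 1) + 1 = (6 + 2 * i + 1) + 1 + 1 := by ring
    rw [e1, Nat.factorial_succ, Nat.factorial_succ, pow_succ, pow_succ]
    push_cast
    have hf : (0 : ℝ) < ((6 + 2 * i + 1).factorial : ℝ) := by positivity
    have hi : (0 : ℝ) ≤ i := by positivity
    set A : ℝ := Real.exp 2.09 * (2.085 ^ (6 + 2 * i + 1) / ((6 + 2 * i + 1).factorial : ℝ)) with hA
    have hA0 : 0 ≤ A := by positivity
    have e2 : Real.exp 2.09 * (2.085 ^ (6 + 2 * i + 1) * 2.085 * 2.085 /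
        ((6 + 2 * (i : ℝ) + 2 + 1) * ((6 + 2 * (i : ℝ) + 1 + 1) *
          ((6 + 2 * i + 1).factorial : ℝ)))) =
        A * (2.085 * 2.085 / ((6 + 2 * (i : ℝ) + 2 + 1) * (6 + 2 * (i : ℝ) + 1 + 1))) := by
      rw [hA]
      field_simp
    rw [e2]
    have e3 : (2.085 * 2.085 : ℝ) / ((6 + 2 * (i : ℝ) + 2 + 1) * (6 + 2 * (i : ℝ) + 1 + 1)) ≤
        1 / 16 := by
      rw [div_le_div_iff₀ (by positivity) (by norm_num)]
      nlinarith
    calc A * (2.085 * 2.085 / ((6 + 2 * (i : ℝ) + 2 + 1) * (6 + 2 * (i : ℝ) + 1 + 1)))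
        ≤ eps i * (1 / 16) := mul_le_mul ih e3 (by positivity) (eps_nonneg i)
      _ = eps (i + 1) := by unfold eps; rw [pow_succ]; ring

lemma geom_le (J : ℕ) : ∑ i ∈ range J, ((1 : ℝ) / 16) ^ i ≤ 16 / 15 := by
  rw [geom_sum_eq (by norm_num)]
  have : (0 : ℝ) ≤ (1 / 16) ^ J := by positivity
  rw [div_le_iff_of_neg (by norm_num)]
  linarith

lemma sum_eps_le (J : ℕ) : ∑ i ∈ range J, eps i ≤ 0.2933 := by
  unfold eps
  rw [← mul_sum]
  have := geom_le J
  nlinarith

lemma prod_eps_le (J : ℕ) : ∏ i ∈ range J, (1 + eps i) ≤ 1.2987 := by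
  rcases Nat.eq_zero_or_pos J with h | h
  · subst h; norm_num
  obtain ⟨K, rfl⟩ : ∃ K, J = K + 1 := ⟨J - 1, by omega⟩
  rw [prod_range_succ']
  have h1 : ∏ i ∈ range K, (1 + eps (i + 1)) ≤ Real.exp (∑ i ∈ range K, eps (i + 1)) := by
    rw [Real.exp_sum]
    refine prod_le_prod (fun i _ => by have := eps_nonneg (i + 1); linarith) (fun i _ => ?_)
    have := Real.add_one_le_exp (eps (i + 1)); linarith
  have h2 : ∑ i ∈ range K, eps (i + 1) ≤ 0.01833 := by
    have h3 : ∑ i ∈ range K, eps (i + 1) = 0.2749 / 16 * ∑ i ∈ range K, ((1 : ℝ) / 16) ^ i := by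
      unfold eps
      rw [mul_sum]
      refine sum_congr rfl fun i _ => ?_
      rw [pow_succ]; ring
    rw [h3]
    have := geom_le K
    nlinarith
  have h4 : Real.exp (∑ i ∈ range K, eps (i + 1)) ≤ 1.0186 := by
    refine (Real.exp_le_exp.mpr h2).trans ?_
    have := Real.exp_bound' (x := 0.01833) (by norm_num) (by norm_num) (n := 3) (by norm_num)
    refine this.trans ?_
    norm_num [Finset.sum_range_succ, Nat.factorial]
  have h5 : 1 + eps 0 = 1.2749 := by unfold eps; norm_num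
  rw [h5]
  have h6 : (0 : ℝ) ≤ ∏ i ∈ range K, (1 + eps (i + 1)) :=
    prod_nonneg fun i _ => by have := eps_nonneg (i + 1); linarith
  nlinarith [h1.trans h4]

lemma good_DD (e z : ℕ) : Good (bd 30 e {0, 2, 6}) (fun _ => 3) (DD z) := by
  refine ⟨?_, ?_, ?_, ?_⟩
  · intro b hb
    exact (mem_DD.mp hb).2.pos
  · intro b _ s
    exact bd_periodic 30 e {0, 2, 6} b s
  · intro b hb
    rw [mem_DD] at hb
    have hc : Nat.Coprime 30 b := by
      rw [Nat.coprime_comm, Nat.Prime.coprime_iff_not_dvd hb.2]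
      intro h
      have h1 : b ∣ 2 * 3 * 5 := h
      rcases (Nat.Prime.dvd_mul hb.2).mp h1 with h2 | h2
      · rcases (Nat.Prime.dvd_mul hb.2).mp h2 with h3 | h3
        · have := Nat.le_of_dvd (by norm_num) h3; omega
        · have := Nat.le_of_dvd (by norm_num) h3; omega
      · have := Nat.le_of_dvd (by norm_num) h2; omega
    have := card_bd (b := b) (c := 30) (e := e) (n := 6) (A := {0, 2, 6}) (by
      intro a ha
      simp only [mem_insert, mem_singleton] at ha
      omega) hb.1.1 hc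
    rw [this]
    decide
  · intro b hb c hc hbc
    rw [mem_DD] at hb hc
    exact (Nat.coprime_primes hb.2 hc.2).mpr hbc

lemma factor_pos {z p : ℕ} (hp : p ∈ DD z) : 0 < 1 - ((3 : ℕ) : ℝ) / p := by
  have h := (mem_DD.mp hp).1.1
  have h1 : (7 : ℝ) ≤ p := by exact_mod_cast h
  rw [sub_pos, div_lt_one (by linarith)]
  push_cast
  linarith

lemma lay_gt {Y z J i p : ℕ} (hz : Y ^ (2 ^ J) ≤ z) (hi : i < J) (hY : 1 ≤ Y) (hp : p ∈ Lay z i) :
    Y < p := by
  unfold Lay at hp
  rw [mem_filter] at hp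
  by_contra hcon
  push Not at hcon
  have h1 := Nat.pow_le_pow_left hcon (2 ^ (i + 1))
  have h2 := pow_mono_two hY (show i + 1 ≤ J by omega)
  omega

lemma big_Y {Y : ℕ} (hY : 5000 ≤ Real.log Y) : (1000000 : ℝ) ≤ Y := by
  have hY0 : (0 : ℝ) < Y := by
    rcases Nat.eq_zero_or_pos Y with h | h
    · rw [h] at hY
      norm_num at hY
    · exact_mod_cast h
  have h1 := Real.quadratic_le_exp_of_nonneg (show 0 ≤ Real.log Y by linarith)
  rw [Real.exp_log hY0] at h1
  nlinarith

lemma lay_sum {Y z J i : ℕ} (hY : 5000 ≤ Real.log Y) (hz : Y ^ (2 ^ J) ≤ z) (hi : i < J) :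
    ∑ p ∈ Lay z i, (3 : ℝ) / p ≤ 2.085 := by
  have hY0 : 2 ≤ Y := by
    by_contra hcon
    have h1 : (Y : ℝ) ≤ 1 := by
      have : Y ≤ 1 := by omega
      exact_mod_cast this
    have := Real.log_nonpos (by positivity) h1
    linarith
  have hYR := big_Y hY
  have h1 : Y ^ (2 ^ (i + 1)) ≤ z :=
    (pow_mono_two (by omega) (show i + 1 ≤ J by omega)).trans hz
  have h2 := lay_mass hY0 h1
  have h3 : (1 : ℝ) / Y ≤ 1 / 1000000 := one_div_le_one_div_of_le (by norm_num) hYR
  have h4 : 9 / Real.log Y ≤ 9 / 5000 := by gcongr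
  have h5 := Real.log_two_lt_d9
  have h6 : ∑ p ∈ Lay z i, (3 : ℝ) / p = 3 * ∑ p ∈ Lay z i, (1 : ℝ) / p := by
    rw [mul_sum]
    exact sum_congr rfl fun p _ => by ring
  rw [h6]
  linarith

theorem data {Y z J : ℕ} (e : ℕ) (hY : 5000 ≤ Real.log Y) (hz : Y ^ (2 ^ J) ≤ z) :
    Data (bd 30 e {0, 2, 6}) (fun _ => 3) (DD z) (Base z J) J (Lay z) (fun i => 6 + 2 * i)
      eps where
  good := good_DD e z
  union := DD_union z J
  dB := Base_disjoint z J
  dL := fun i _ j _ hij => Lay_disjoint z hij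
  even := fun i => ⟨3 + i, by ring⟩
  Bpos := prod_pos fun p hp => factor_pos (by unfold Base at hp; exact (mem_filter.mp hp).1)
  Lpos := fun i _ => prod_pos fun p hp => factor_pos (by unfold Lay at hp; exact (mem_filter.mp hp).1)
  eps := by
    intro i hi
    have hY0 : 1 ≤ Y := by
      by_contra hcon
      have h1 : Y = 0 := by omega
      rw [h1] at hY
      norm_num at hY
    have hYR := big_Y hY
    have hs := lay_sum hY hz hi
    have h1 : esum (Lay z i) (fun b => (((3 : ℕ) : ℝ)) / b) (6 + 2 * i + 1) ≤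
        2.085 ^ (6 + 2 * i + 1) / ((6 + 2 * i + 1).factorial : ℝ) := by
      refine (esum_le (fun b _ => by positivity) _).trans ?_
      have : ∑ b ∈ Lay z i, (((3 : ℕ) : ℝ)) / b ≤ 2.085 := by
        push_cast; exact hs
      gcongr
    have h2 : Real.exp (-2.09) ≤ ∏ p ∈ Lay z i, (1 - (3 : ℝ) / p) := by
      refine le_trans ?_ (prod_ge (F := Lay z i) (δ := 1 / 1000) (Λ := 2.085) (by norm_num)
        (by norm_num) (fun p hp => ?_) hs)
      · rw [Real.exp_le_exp]; norm_num
      · have h3 := lay_gt hz hi hY0 hp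
        have h4 : (5000 : ℝ) ≤ p := by
          have : (Y : ℝ) ≤ p := by exact_mod_cast h3.le
          linarith
        rw [div_le_iff₀ (by linarith)]
        linarith
    have h3 := term_bound i
    have h4 : (0 : ℝ) < Real.exp 2.09 := Real.exp_pos _
    have h5 : 2.085 ^ (6 + 2 * i + 1) / ((6 + 2 * i + 1).factorial : ℝ) ≤
        eps i * Real.exp (-2.09) := by
      rw [Real.exp_neg, ← div_eq_mul_inv, le_div_iff₀ h4]
      linarith
    refine h1.trans (h5.trans ?_)
    refine mul_le_mul_of_nonneg_left ?_ (eps_nonneg i)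
    push_cast
    exact h2
  eps0 := eps_nonneg

end Pool.Agent.H52G
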