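import Pool.Agent.H52G.Size

/-!
# The sieve product
-/

set_option autoImplicit false

namespace Pool.Agent.H52G

open Finset Classical Pool.Agent.H14Trans

/-- Mertens' estimate, restated -/
lemma mertens {n m : ℕ} (hn : 2 ≤ n) (hnm : n ≤ m) :
    |∑ p ∈ (Ico n m).filter Nat.Prime, (1 : ℝ) / p -
      (Real.log (Real.log m) - Real.log (Real.log n))| ≤ 9 / Real.log n := by
  convert Pool.Agent.Sv.abs_sum_inv_sub_le hn hnm using 5

lemma DD_eq (z : ℕ) : DD z = (Ico 7 (z + 1)).filter Nat.Prime := by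
  ext p
  rw [mem_DD, mem_filter, mem_Ico]
  constructor
  · rintro ⟨⟨h1, h2⟩, h3⟩; exact ⟨⟨by omega, by omega⟩, h3⟩
  · rintro ⟨⟨h1, h2⟩, h3⟩; exact ⟨⟨by omega, by omega⟩, h3⟩

lemma log_seven : 1 ≤ Real.log ((7 : ℕ) : ℝ) := by
  rw [Real.le_log_iff_exp_le (by norm_num)]
  have := Real.exp_one_lt_d9
  push_cast
  linarith

/-- the product is at least a constant over the cube of the logarithm -/
lemma V_ge {z : ℕ} (hz : 7 ≤ z) :
    Real.exp (-45) / Real.log ((z + 1 : ℕ) : ℝ) ^ 3 ≤ V z := by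
  have hl7 := log_seven
  have hlz : Real.log ((7 : ℕ) : ℝ) ≤ Real.log ((z + 1 : ℕ) : ℝ) :=
    Real.log_le_log (by norm_num) (by exact_mod_cast (by omega : 7 ≤ z + 1))
  have h1 : ∑ p ∈ DD z, (1 : ℝ) / p ≤ Real.log (Real.log ((z + 1 : ℕ) : ℝ)) + 9 := by
    rw [DD_eq]
    have h2 := (abs_le.mp (mertens (n := 7) (m := z + 1) (by norm_num)
      (by omega))).2
    have h3 : 9 / Real.log ((7 : ℕ) : ℝ) ≤ 9 := by
      rw [div_le_iff₀ (by linarith)]; linarith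
    have h4 : 0 ≤ Real.log (Real.log ((7 : ℕ) : ℝ)) := Real.log_nonneg hl7
    have h5 := h2.trans h3
    rw [sub_le_iff_le_add] at h5
    refine h5.trans ?_
    linarith
  have h5 : ∑ p ∈ DD z, (1 : ℝ) / (p : ℝ) ^ 2 ≤ 1 := by
    refine le_trans (sum_le_sum_of_subset_of_nonneg (t := Icc 2 z) ?_
      (fun _ _ _ => by positivity)) (sum_inv_sq_le z)
    intro p hp
    rw [mem_DD] at hp
    rw [mem_Icc]
    omega
  have h6 : Real.exp (-∑ p ∈ DD z, ((3 : ℝ) / p + 2 * ((3 : ℝ) / p) ^ 2)) ≤ V z := by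
    unfold V
    rw [← sum_neg_distrib, Real.exp_sum]
    refine prod_le_prod (fun p _ => (Real.exp_pos _).le) (fun p hp => ?_)
    refine one_sub_ge' (by positivity) ?_
    have h7 : (7 : ℝ) ≤ p := by exact_mod_cast (mem_DD.mp hp).1.1
    rw [div_le_iff₀ (by linarith)]
    linarith
  refine le_trans ?_ h6
  have h8 : ∑ p ∈ DD z, ((3 : ℝ) / p + 2 * ((3 : ℝ) / p) ^ 2) =
      3 * ∑ p ∈ DD z, (1 : ℝ) / p + 18 * ∑ p ∈ DD z, (1 : ℝ) / (p : ℝ) ^ 2 := by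
    rw [mul_sum, mul_sum, ← sum_add_distrib]
    refine sum_congr rfl fun p _ => ?_
    ring
  have h9 : (0 : ℝ) < Real.log ((z + 1 : ℕ) : ℝ) := by linarith
  have h10 : Real.exp (-45) / Real.log ((z + 1 : ℕ) : ℝ) ^ 3 =
      Real.exp (-45 - 3 * Real.log (Real.log ((z + 1 : ℕ) : ℝ))) := by
    rw [Real.exp_sub, show (3 : ℝ) * Real.log (Real.log ((z + 1 : ℕ) : ℝ)) =
      ((3 : ℕ) : ℝ) * Real.log (Real.log ((z + 1 : ℕ) : ℝ)) by norm_num, Real.exp_nat_mul,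
      Real.exp_log h9]
  rw [h10, h8, Real.exp_le_exp]
  linarith

lemma V_pos (z : ℕ) : 0 < V z := by
  unfold V
  exact prod_pos fun p hp => by
    have := factor_pos hp
    push_cast at this
    exact this

/-- comparison of two products -/
lemma V_ratio {z z' : ℕ} (hz : 7 ≤ z) (hzz : z ≤ z') :
    V z' ≤ V z * ((Real.log ((z + 1 : ℕ) : ℝ) / Real.log ((z' + 1 : ℕ) : ℝ)) ^ 3 *
      Real.exp (27 / Real.log ((z + 1 : ℕ) : ℝ))) := by
  have hl7 := log_seven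
  have hlz : Real.log ((7 : ℕ) : ℝ) ≤ Real.log ((z + 1 : ℕ) : ℝ) :=
    Real.log_le_log (by norm_num) (by exact_mod_cast (by omega : 7 ≤ z + 1))
  have hlz' : Real.log ((z + 1 : ℕ) : ℝ) ≤ Real.log ((z' + 1 : ℕ) : ℝ) :=
    Real.log_le_log (by positivity) (by exact_mod_cast (by omega : z + 1 ≤ z' + 1))
  set F := (Ico (z + 1) (z' + 1)).filter Nat.Prime with hF
  have h1 : DD z' = DD z ∪ F := by
    ext p
    rw [mem_union, mem_DD, mem_DD, hF, mem_filter, mem_Ico]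
    constructor
    · rintro ⟨⟨h1, h2⟩, h3⟩
      rcases Nat.lt_or_ge z p with h | h
      · exact Or.inr ⟨⟨by omega, by omega⟩, h3⟩
      · exact Or.inl ⟨⟨h1, h⟩, h3⟩
    · rintro (⟨⟨h1, h2⟩, h3⟩ | ⟨⟨h1, h2⟩, h3⟩)
      · exact ⟨⟨h1, by omega⟩, h3⟩
      · exact ⟨⟨by omega, by omega⟩, h3⟩
  have h2 : Disjoint (DD z) F := by
    rw [disjoint_left]
    intro p hp hp'
    rw [mem_DD] at hp
    rw [hF, mem_filter, mem_Ico] at hp'
    omega
  have h3 : V z' = V z * ∏ p ∈ F, (1 - (3 : ℝ) / p) := by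
    unfold V
    rw [h1, prod_union h2]
  rw [h3]
  refine mul_le_mul_of_nonneg_left ?_ (V_pos z).le
  have h4 : ∏ p ∈ F, (1 - (3 : ℝ) / p) ≤ Real.exp (-(3 * ∑ p ∈ F, (1 : ℝ) / p)) := by
    rw [mul_sum, ← sum_neg_distrib, Real.exp_sum]
    refine prod_le_prod (fun p hp => ?_) (fun p _ => ?_)
    · rw [hF, mem_filter, mem_Ico] at hp
      have h7 : (7 : ℝ) ≤ p := by exact_mod_cast (by omega : 7 ≤ p)
      rw [sub_nonneg, div_le_one (by linarith)]
      linarith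
    · have h5 := Real.add_one_le_exp (-(3 * (1 / (p : ℝ))))
      have h6 : (3 : ℝ) / p = 3 * (1 / p) := by ring
      rw [h6]
      linarith
  refine h4.trans ?_
  have h5 := (abs_le.mp (mertens (n := z + 1) (m := z' + 1) (by omega)
    (by omega))).1
  rw [← hF] at h5
  have h9 : (0 : ℝ) < Real.log ((z + 1 : ℕ) : ℝ) := by linarith
  have h9' : (0 : ℝ) < Real.log ((z' + 1 : ℕ) : ℝ) := by linarith
  have h10 : (Real.log ((z + 1 : ℕ) : ℝ) / Real.log ((z' + 1 : ℕ) : ℝ)) ^ 3 =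
      Real.exp (3 * (Real.log (Real.log ((z + 1 : ℕ) : ℝ)) -
        Real.log (Real.log ((z' + 1 : ℕ) : ℝ)))) := by
    rw [← Real.log_div h9.ne' h9'.ne', show (3 : ℝ) * Real.log (Real.log ((z + 1 : ℕ) : ℝ) /
      Real.log ((z' + 1 : ℕ) : ℝ)) = ((3 : ℕ) : ℝ) * Real.log (Real.log ((z + 1 : ℕ) : ℝ) /
      Real.log ((z' + 1 : ℕ) : ℝ)) by norm_num, Real.exp_nat_mul, Real.exp_log (by positivity)]
  rw [h10, ← Real.exp_add, Real.exp_le_exp]
  have h11 : 27 / Real.log ((z + 1 : ℕ) : ℝ) = 3 * (9 / Real.log ((z + 1 : ℕ) : ℝ)) := by ring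
  rw [h11]
  linarith

end Pool.Agent.H52G
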