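import Pool.Agent.H52G.Num

/-!
# The sieve with explicit level
-/

set_option autoImplicit false

namespace Pool.Agent.H52G

open Finset Classical Pool.Agent.H14Trans

/-- the sieve product -/
noncomputable def V (z : ℕ) : ℝ := ∏ p ∈ DD z, (1 - (3 : ℝ) / p)

/-- the number of `s < M` such that `30 s + e`, `30 s + e + 2`, `30 s + e + 6` have no prime factor
in `(6, z]` -/
noncomputable def cnt (e z M : ℕ) : ℕ := #((range M).filter (Avoid (bd 30 e {0, 2, 6}) (DD z)))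

lemma sum_geo (a : ℝ) (J : ℕ) :
    ∑ i ∈ range J, (a + 2 * (i : ℝ)) / 2 ^ i = 2 * a + 4 - (2 * a + 4 + 4 * J) / 2 ^ J := by
  induction J with
  | zero => simp
  | succ J ih =>
    rw [sum_range_succ, ih, pow_succ]
    push_cast
    field_simp
    ring

lemma sum_lin (a : ℝ) (J : ℕ) :
    ∑ i ∈ range J, (a + 2 * (i : ℝ)) = a * J + (J : ℝ) * (J - 1) := by
  induction J with
  | zero => simp
  | succ J ih =>
    rw [sum_range_succ, ih]
    push_cast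
    ring

lemma quad_le (J : ℕ) : J * J + 7 * J ≤ 12 * 2 ^ J := by
  induction J with
  | zero => norm_num
  | succ J ih =>
    rw [pow_succ]
    have h1 : J + 1 ≤ 2 ^ J := Nat.lt_two_pow_self
    nlinarith

lemma sq_lt_two_pow (J : ℕ) : J < 2 ^ J := Nat.lt_two_pow_self

/-- size of the weights -/
lemma weight_le {Y z J : ℕ} {a : ℕ} (hY2 : 2 ≤ Y) (hz : Y ^ (2 ^ J) ≤ z) :
    ∏ i ∈ range J, (1 + ∑ _b ∈ Lay z i, (((3 : ℕ) : ℝ))) ^ (a + 2 * i) ≤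
      Real.exp (Real.log 4 * (a * J + (J : ℝ) * (J - 1)) + (2 * a + 4) * Real.log z) := by
  have hz1 : 1 ≤ z := le_trans (Nat.one_le_pow _ _ (by omega)) hz
  have hlz : 0 ≤ Real.log z := Real.log_nonneg (by exact_mod_cast hz1)
  have h1 : ∏ i ∈ range J, (1 + ∑ _b ∈ Lay z i, (((3 : ℕ) : ℝ))) ^ (a + 2 * i) =
      Real.exp (∑ i ∈ range J, ((a : ℝ) + 2 * i) * Real.log (1 + 3 * (#(Lay z i) : ℝ))) := by
    rw [Real.exp_sum]
    refine prod_congr rfl fun i _ => ?_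
    have h2 : (1 + ∑ _b ∈ Lay z i, (((3 : ℕ) : ℝ))) = 1 + 3 * (#(Lay z i) : ℝ) := by
      rw [sum_const, nsmul_eq_mul]; push_cast; ring
    rw [h2]
    have h3 : (0 : ℝ) < 1 + 3 * (#(Lay z i) : ℝ) := by positivity
    have h4 : ((a : ℝ) + 2 * i) = ((a + 2 * i : ℕ) : ℝ) := by push_cast; ring
    rw [h4, Real.exp_nat_mul, Real.exp_log h3]
  rw [h1, Real.exp_le_exp]
  calc ∑ i ∈ range J, ((a : ℝ) + 2 * i) * Real.log (1 + 3 * (#(Lay z i) : ℝ))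
      ≤ ∑ i ∈ range J, (Real.log 4 * ((a : ℝ) + 2 * i) +
          Real.log z * (((a : ℝ) + 2 * i) / 2 ^ i)) := by
        refine sum_le_sum fun i hi => ?_
        rw [mem_range] at hi
        have h5 : Y ^ (2 ^ (i + 1)) ≤ z := (pow_mono_two (by omega) (by omega)).trans hz
        have h6 := lay_card hY2 h5
        have h7 : (0 : ℝ) ≤ (a : ℝ) + 2 * i := by positivity
        calc ((a : ℝ) + 2 * i) * Real.log (1 + 3 * (#(Lay z i) : ℝ))
            ≤ ((a : ℝ) + 2 * i) * (Real.log 4 + Real.log z / 2 ^ i) :=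
              mul_le_mul_of_nonneg_left h6 h7
          _ = _ := by ring
    _ = Real.log 4 * (a * J + (J : ℝ) * (J - 1)) +
          Real.log z * (2 * a + 4 - (2 * a + 4 + 4 * J) / 2 ^ J) := by
        rw [sum_add_distrib, ← mul_sum, ← mul_sum, sum_geo, sum_lin]
    _ ≤ _ := by
        have h8 : (0 : ℝ) ≤ (2 * a + 4 + 4 * J) / 2 ^ J := by positivity
        nlinarith

lemma base_card {Y z J : ℕ} (hz : z < Y ^ (2 ^ (J + 1))) : #(Base z J) ≤ Y ^ 2 := by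
  have h1 : Base z J ⊆ range (Y ^ 2) := by
    intro p hp
    unfold Base at hp
    rw [mem_filter] at hp
    rw [mem_range]
    by_contra hcon
    push Not at hcon
    have h2 := Nat.pow_le_pow_left hcon (2 ^ J)
    rw [← pow_mul, show 2 * 2 ^ J = 2 ^ (J + 1) by rw [pow_succ]; ring] at h2
    omega
  simpa using card_le_card h1

lemma num_up {J : ℕ} {l : ℝ} (hlz : 5000 * (2 : ℝ) ^ J ≤ l) :
    Real.log 4 * J + (Real.log 4 * ((6 : ℕ) * J + (J : ℝ) * (J - 1)) + (2 * (6 : ℕ) + 4) * l) ≤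
      l * 16.05 := by
  have hq : (J : ℝ) * J + 7 * J ≤ 12 * 2 ^ J := by exact_mod_cast quad_le J
  have hl4 : Real.log 4 ≤ 1.4 := by
    rw [show (4 : ℝ) = 2 ^ 2 by norm_num, Real.log_pow]
    have := Real.log_two_lt_d9
    norm_num
    linarith
  have hl40 : 0 ≤ Real.log 4 := Real.log_nonneg (by norm_num)
  have hJ0 : (0 : ℝ) ≤ J := by positivity
  have h7 : Real.log 4 * J + Real.log 4 * ((6 : ℕ) * J + (J : ℝ) * (J - 1)) =
      Real.log 4 * ((J : ℝ) * J + 6 * J) := by push_cast; ring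
  have h8 : Real.log 4 * ((J : ℝ) * J + 6 * J) ≤ 1.4 * (12 * 2 ^ J) :=
    mul_le_mul hl4 (by linarith) (by positivity) (by norm_num)
  have h9 : (2 * ((6 : ℕ) : ℝ) + 4) * l = 16 * l := by push_cast; ring
  have h10 : (0 : ℝ) < 2 ^ J := by positivity
  linarith

lemma num_low {J : ℕ} {l : ℝ} (hlz : 5000 * (2 : ℝ) ^ J ≤ l) :
    J + (Real.log 4 * J + (Real.log 4 * ((7 : ℕ) * J + (J : ℝ) * (J - 1)) +
      (2 * (7 : ℕ) + 4) * l)) ≤ l * 18.05 := by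
  have hq : (J : ℝ) * J + 7 * J ≤ 12 * 2 ^ J := by exact_mod_cast quad_le J
  have hl : (J : ℝ) ≤ 2 ^ J := by exact_mod_cast (sq_lt_two_pow J).le
  have hl4 : Real.log 4 ≤ 1.4 := by
    rw [show (4 : ℝ) = 2 ^ 2 by norm_num, Real.log_pow]
    have := Real.log_two_lt_d9
    norm_num
    linarith
  have hl40 : 0 ≤ Real.log 4 := Real.log_nonneg (by norm_num)
  have hJ0 : (0 : ℝ) ≤ J := by positivity
  have h7 : Real.log 4 * J + Real.log 4 * ((7 : ℕ) * J + (J : ℝ) * (J - 1)) =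
      Real.log 4 * ((J : ℝ) * J + 7 * J) := by push_cast; ring
  have h8 : Real.log 4 * ((J : ℝ) * J + 7 * J) ≤ 1.4 * (12 * 2 ^ J) :=
    mul_le_mul hl4 hq (by positivity) (by norm_num)
  have h9 : (2 * ((7 : ℕ) : ℝ) + 4) * l = 18 * l := by push_cast; ring
  have h10 : (0 : ℝ) < 2 ^ J := by positivity
  linarith

lemma err_up {Y z J : ℕ} (hY2 : 2 ≤ Y) (hz1 : Y ^ (2 ^ J) ≤ z)
    (hlz : 5000 * (2 : ℝ) ^ J ≤ Real.log z)
    (hRB : ∏ _b ∈ Base z J, (1 + (((3 : ℕ) : ℝ))) ≤ Real.exp (Real.log 4 * J)) :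
    (∏ _b ∈ Base z J, (1 + (((3 : ℕ) : ℝ)))) *
      ∏ i ∈ range J, (1 + ∑ _b ∈ Lay z i, (((3 : ℕ) : ℝ))) ^ (6 + 2 * i) ≤
      (z : ℝ) ^ (16.05 : ℝ) := by
  have hzpos : 1 ≤ z := le_trans (Nat.one_le_pow _ _ (by omega)) hz1
  have hzR : (0 : ℝ) < z := by exact_mod_cast hzpos
  have h3 := weight_le (a := 6) hY2 hz1
  have h6 : (0 : ℝ) ≤ ∏ i ∈ range J, (1 + ∑ _b ∈ Lay z i, (((3 : ℕ) : ℝ))) ^ (6 + 2 * i) :=
    prod_nonneg fun i _ => pow_nonneg (by positivity) _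
  refine (mul_le_mul hRB h3 h6 (Real.exp_pos _).le).trans ?_
  rw [← Real.exp_add, Real.rpow_def_of_pos hzR, Real.exp_le_exp]
  exact num_up hlz

lemma err_low {Y z J : ℕ} (hY2 : 2 ≤ Y) (hz1 : Y ^ (2 ^ J) ≤ z)
    (hlz : 5000 * (2 : ℝ) ^ J ≤ Real.log z)
    (hRB : ∏ _b ∈ Base z J, (1 + (((3 : ℕ) : ℝ))) ≤ Real.exp (Real.log 4 * J)) :
    ((J : ℝ) + 1) * ((∏ _b ∈ Base z J, (1 + (((3 : ℕ) : ℝ)))) *
      ∏ i ∈ range J, (1 + ∑ _b ∈ Lay z i, (((3 : ℕ) : ℝ))) ^ (6 + 2 * i + 1)) ≤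
      (z : ℝ) ^ (18.05 : ℝ) := by
  have hzpos : 1 ≤ z := le_trans (Nat.one_le_pow _ _ (by omega)) hz1
  have hzR : (0 : ℝ) < z := by exact_mod_cast hzpos
  have h3 := weight_le (a := 7) hY2 hz1
  have h4 : ∏ i ∈ range J, (1 + ∑ _b ∈ Lay z i, (((3 : ℕ) : ℝ))) ^ (6 + 2 * i + 1) =
      ∏ i ∈ range J, (1 + ∑ _b ∈ Lay z i, (((3 : ℕ) : ℝ))) ^ (7 + 2 * i) :=
    prod_congr rfl fun i _ => by rw [show 6 + 2 * i + 1 = 7 + 2 * i by ring]
  rw [h4]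
  have h5 : (J : ℝ) + 1 ≤ Real.exp J := Real.add_one_le_exp _
  have h6 : (0 : ℝ) ≤ ∏ i ∈ range J, (1 + ∑ _b ∈ Lay z i, (((3 : ℕ) : ℝ))) ^ (7 + 2 * i) :=
    prod_nonneg fun i _ => pow_nonneg (by positivity) _
  have h7 := mul_le_mul hRB h3 h6 (Real.exp_pos _).le
  have h8 : (0 : ℝ) ≤ (∏ _b ∈ Base z J, (1 + (((3 : ℕ) : ℝ)))) *
      ∏ i ∈ range J, (1 + ∑ _b ∈ Lay z i, (((3 : ℕ) : ℝ))) ^ (7 + 2 * i) :=
    mul_nonneg (prod_nonneg fun _ _ => by positivity) h6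
  refine (mul_le_mul h5 h7 h8 (Real.exp_pos _).le).trans ?_
  rw [← Real.exp_add, ← Real.exp_add, Real.rpow_def_of_pos hzR, Real.exp_le_exp]
  exact num_low hlz

lemma step {Y z J : ℕ} (hY : 5000 ≤ Real.log Y) (hJ : Y ^ 2 ≤ J) (hz1 : Y ^ (2 ^ J) ≤ z)
    (hz2 : z < Y ^ (2 ^ (J + 1))) (e M : ℕ) :
    0.7067 * (M * V z) - (z : ℝ) ^ (18.05 : ℝ) ≤ (cnt e z M : ℝ) ∧
    (cnt e z M : ℝ) ≤ 1.2987 * (M * V z) + (z : ℝ) ^ (16.05 : ℝ) := by
  have hYbig := big_Y hY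
  have hY2 : 2 ≤ Y := by
    have : (2 : ℝ) ≤ Y := by linarith
    exact_mod_cast this
  have hB := base_card hz2
  have hlz : 5000 * (2 : ℝ) ^ J ≤ Real.log z := by
    have h1 := log_two_pow_le (by omega) hz1
    push_cast at h1
    have : (0 : ℝ) < 2 ^ J := by positivity
    nlinarith
  have hRB : ∏ _b ∈ Base z J, (1 + (((3 : ℕ) : ℝ))) ≤ Real.exp (Real.log 4 * J) := by
    rw [prod_const]
    have h1 : (1 + (((3 : ℕ) : ℝ))) = 4 := by norm_num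
    rw [h1]
    calc (4 : ℝ) ^ #(Base z J) ≤ 4 ^ J :=
          pow_le_pow_right₀ (by norm_num) (hB.trans hJ)
      _ = Real.exp (Real.log 4 * J) := by
          rw [mul_comm, Real.exp_nat_mul, Real.exp_log (by norm_num)]
  obtain ⟨hlow, hupp⟩ := brun_hooley (data e hY hz1) M
  have hVeq : ∏ b ∈ DD z, (1 - (((3 : ℕ) : ℝ)) / b) = V z := by
    unfold V
    push_cast
    rfl
  rw [hVeq] at hlow hupp
  have hV0 : 0 ≤ V z := by
    rw [← hVeq]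
    exact prod_nonneg fun p hp => (factor_pos hp).le
  have hMV : 0 ≤ (M : ℝ) * V z := by positivity
  have hcnt : (cnt e z M : ℝ) =
      (#((range M).filter (Avoid (bd 30 e {0, 2, 6}) (DD z))) : ℝ) := rfl
  rw [hcnt]
  constructor
  · refine le_trans ?_ hlow
    have h1 := sum_eps_le J
    have h2 : 0.7067 * (M * V z) ≤ M * V z * (1 - ∑ i ∈ range J, eps i) := by nlinarith
    exact sub_le_sub h2 (err_low hY2 hz1 hlz hRB)
  · refine hupp.trans ?_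
    have h1 := prod_eps_le J
    have h2 : M * V z * ∏ i ∈ range J, (1 + eps i) ≤ 1.2987 * (M * V z) := by nlinarith
    exact add_le_add h2 (err_up hY2 hz1 hlz hRB)

/-- The sieve. -/
theorem sieve : ∃ z₀ : ℕ, ∀ z, z₀ ≤ z → ∀ e M : ℕ,
    0.7067 * (M * V z) - (z : ℝ) ^ (18.05 : ℝ) ≤ (cnt e z M : ℝ) ∧
    (cnt e z M : ℝ) ≤ 1.2987 * (M * V z) + (z : ℝ) ^ (16.05 : ℝ) := by
  obtain ⟨Y, hYdef⟩ := exists_nat_ge (Real.exp 5000)
  have hY : 5000 ≤ Real.log Y := by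
    have := Real.log_le_log (Real.exp_pos _) hYdef
    rwa [Real.log_exp] at this
  have hYbig := big_Y hY
  have hY2 : 2 ≤ Y := by
    have : (2 : ℝ) ≤ Y := by linarith
    exact_mod_cast this
  clear hYdef
  obtain ⟨K, hK⟩ : ∃ K, K = Y ^ 2 := ⟨_, rfl⟩
  refine ⟨Y ^ (2 ^ K), ?_⟩
  intro z hz e M
  obtain ⟨J, hJ, hz1, hz2⟩ := Pool.Agent.TotGap.exists_scale (a := Y) (s := 1) (J₀ := K)
    (y := z) hY2 le_rfl (by rw [pow_one]; exact hz)
  rw [pow_one] at hz1 hz2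
  exact step hY (hK ▸ hJ) hz1 hz2 e M

end Pool.Agent.H52G
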